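import Pool.Agent.H96.BN.Meas

/-!
# The box power of `ω + 1` is not normal in a Baire measurable way

There are two disjoint closed sets in the box product of countably many copies of `ω + 1`, Borel
for the product topology, whose union is closed and discrete (with a Borel witness), which cannot
be separated by neighbourhoods that are chosen in a Baire measurable way, not even on a comeager
part of the two sets.
-/

set_option autoImplicit false

open Topology Set

namespace Pool.Agent.Results.MP_d75401_gt.BaireNonNormal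

open Pool.Agent.H96.BN

theorem result : ∃ H K : Set (ℕ → ℕ∞),
    IsClosed[boxTop] H ∧ IsClosed[boxTop] K ∧ Disjoint H K ∧ MeasurableSet H ∧ MeasurableSet K ∧
    (∃ g : (ℕ → ℕ∞) → ℕ → ℕ, Measurable g ∧ ∀ z, nbd z (g z) ∩ (H ∪ K) ⊆ {z}) ∧
    ∀ F : (ℕ → ℕ∞) → ℕ → ℕ, BaireOn (H ∪ K) F → ∀ R, ComeagerIn (H ∪ K) R →
      ∃ x ∈ H ∩ R, ∃ y ∈ K ∩ R, ¬ Disjoint (nbd x (F x)) (nbd y (F y)) :=
  main

end Pool.Agent.Results.MP_d75401_gt.BaireNonNormal
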