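import Pool.Agent.H58.BP.CWN

/-!
# Consequences of normality of the box power of `ω + 1`

If the box product of countably many copies of `ω + 1` is normal then it is strongly
collectionwise Hausdorff, and every discrete family (of any size) of closed sets which are closed
under finite modifications has a discrete open expansion.
-/

set_option autoImplicit false

open Topology Set

namespace Pool.Agent.Results.MP_d75401_gt.CollectionwiseHausdorff

open Pool.Agent.H96.BN Pool.Agent.H58.BP

theorem result (hN : @NormalSpace (ℕ → ℕ∞) boxTop) :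
    (∀ D : Set (ℕ → ℕ∞), (∀ z, ∃ g, nbd z g ∩ D ⊆ {z}) →
      ∃ F : (ℕ → ℕ∞) → ℕ → ℕ, Discr fun x : D => nbd x.1 (F x.1)) ∧
    ∀ (I : Type) (H : I → Set (ℕ → ℕ∞)), (∀ i, IsClosed[boxTop] (H i)) → (∀ i, Sat (H i)) →
      Discr H → ∃ W : I → Set (ℕ → ℕ∞), (∀ i, IsOpen[boxTop] (W i)) ∧ (∀ i, H i ⊆ W i) ∧ Discr W :=
  ⟨cwh' hN, fun _ H h1 h2 h3 => expand' hN H h1 h2 h3⟩

end Pool.Agent.Results.MP_d75401_gt.CollectionwiseHausdorff
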