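import Pool.Agent.H60.BXP.Final3

/-!
# Subspaces of the box power of `ω + 1` given by supports

In ZFC, in the box product of countably many copies of `ω + 1`: subspaces all of whose points are
tame or have their support (the set of the infinite coordinates) in a family of sets with mild
crossings are ultraparacompact, and disjoint closed sets of such points are separated.
-/

set_option autoImplicit false

open Topology Set Cardinal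

namespace Pool.Agent.Results.MP_d75401_gt.MildSupports

open Pool.Agent.H96.BN Pool.Agent.H58.BP Pool.Agent.H60.BXP

/-- every family of open sets which covers `A` is refined by a family of pairwise disjoint open
sets which covers `A` -/
def Ultra (A : Set (ℕ → ℕ∞)) : Prop :=
  ∀ U : Set (Set (ℕ → ℕ∞)), (∀ V ∈ U, IsOpen[boxTop] V) → A ⊆ ⋃₀ U →
    ∃ R : Set (Set (ℕ → ℕ∞)), (∀ V ∈ R, IsOpen[boxTop] V ∧ ∃ W ∈ U, V ⊆ W) ∧
      (∀ V ∈ R, ∀ W ∈ R, V ≠ W → Disjoint V W) ∧ A ⊆ ⋃₀ R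

/-- the support of `x` is a member of `𝒲` up to finitely many places -/
def SuppIn (𝒲 : Set (Set ℕ)) (x : ℕ → ℕ∞) : Prop := ∃ W ∈ 𝒲, (symmDiff (supp x) W).Finite

/-- `𝒲` is the union of at most `𝔡` families `𝒰`, and every `V` in `𝒲` has a set `S V` of less
than `𝔡` sets and for every `𝒰` a function `ψ` such that `W ∈ S V` or `V ∈ S W` or `V \ W` meets
almost all intervals `[k, ψ k]`, for all `W` in `𝒰` which cross `V` -/
def Mild (𝒲 : Set (Set ℕ)) : Prop :=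
  ∃ (𝔘 : Set (Set (Set ℕ))) (S : Set ℕ → Set (Set ℕ)), #𝔘 ≤ dd ∧ 𝒲 = ⋃₀ 𝔘 ∧
    (∀ V ∈ 𝒲, #(S V) < dd) ∧
    ∀ V ∈ 𝒲, ∀ 𝒰 ∈ 𝔘, ∃ ψ : ℕ → ℕ, ∀ W ∈ 𝒰, Cross V W → W ∈ S V ∨ V ∈ S W ∨ Meets ψ V W

/-- unions of at most `𝔡` almost disjoint families are mild -/
theorem mild_of_ad (𝔘 : Set (Set (Set ℕ))) (h𝔘 : #𝔘 ≤ dd)
    (had : ∀ 𝒰 ∈ 𝔘, ∀ V ∈ 𝒰, ∀ W ∈ 𝒰, V ≠ W → (V ∩ W).Finite) : Mild (⋃₀ 𝔘) := by
  classical
  refine ⟨𝔘, fun _ => ∅, h𝔘, rfl, fun V _ => ?_, fun V _ 𝒰 h𝒰 => ?_⟩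
  · rw [mk_eq_zero]
    exact lt_of_lt_of_le aleph0_pos aleph0_le_dd
  · by_cases h : ∃ W1 ∈ 𝒰, (V ∩ W1).Infinite
    · obtain ⟨W1, hW1, hinf⟩ := h
      refine ⟨fun k => max (nx (V ∩ W1) k) (nx (V \ W1) k), fun W hW hc => Or.inr (Or.inr ?_)⟩
      by_cases hWW : W = W1
      · subst hWW
        refine ⟨0, fun k _ => ?_⟩
        obtain ⟨c1, c2⟩ := nx_spec hc.2.1 k
        exact ⟨nx (V \ W) k, c2, c1, le_max_right _ _⟩
      · obtain ⟨K, hK⟩ := finite_bound (had 𝒰 h𝒰 W hW W1 hW1 hWW)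
        refine ⟨K, fun k hk => ?_⟩
        obtain ⟨c1, c2⟩ := nx_spec hinf k
        exact ⟨nx (V ∩ W1) k, ⟨c2.1, fun h => hK _ (hk.trans c1) ⟨h, c2.2⟩⟩, c1, le_max_left _ _⟩
    · push Not at h
      exact ⟨id, fun W hW hc => absurd (h W hW) hc.1⟩

theorem result (g : ℕ → ℕ → ℕ) (𝒲 : Set (Set ℕ)) (h𝒲 : Mild 𝒲) (A : Set (ℕ → ℕ∞)) (hA : Sat A)
    (hx : ∀ x ∈ A, Tame g x ∨ SuppIn 𝒲 x) :
    Ultra A ∧ ∀ H K, H ∪ K ⊆ A → IsClosed[boxTop] H → IsClosed[boxTop] K → Disjoint H K →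
      @SeparatedNhds _ boxTop H K := by
  obtain ⟨𝔘, S, h1, rfl, h3, h4⟩ := h𝒲
  exact ⟨fun U hU hAU => ultra_main g 𝔘 h1 S h3 h4 A hA hx U hU hAU,
    fun H K hHK hH hK hd => sep_main2 g 𝔘 h1 S h3 h4 H K hH hK hd fun x h => hx x (hHK h)⟩

end Pool.Agent.Results.MP_d75401_gt.MildSupports
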