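import Pool.Agent.H60.BXP.OneSided

/-!
# One-sided separation in the box power of `ω + 1`

In ZFC, in the box product of countably many copies of `ω + 1`, a closed set whose points are tame,
or belong to a set of less than `𝔡` points, or have their supports (sets of the infinite
coordinates) in a family of less than `𝔡` sets without uncountable chains, is separated from every
disjoint closed set.
-/

set_option autoImplicit false

open Topology Set Cardinal

namespace Pool.Agent.Results.MP_d75401_gt.OneSidedSeparation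

open Pool.Agent.H96.BN Pool.Agent.H58.BP Pool.Agent.H60.BXP

theorem result (g : ℕ → ℕ → ℕ) (S : Set (ℕ → ℕ∞)) (𝒲 : Set (Set ℕ)) (hS : #S < dd)
    (h𝒲 : #𝒲 < dd) (hch : ∀ 𝒞 ⊆ 𝒲, (∀ V ∈ 𝒞, ∀ W ∈ 𝒞, CompF V W) → 𝒞.Countable)
    (H K : Set (ℕ → ℕ∞)) (hH : IsClosed[boxTop] H) (hK : IsClosed[boxTop] K) (hd : Disjoint H K)
    (hx : ∀ x ∈ H, Tame g x ∨ x ∈ S ∨ ∃ W ∈ 𝒲, (symmDiff (supp x) W).Finite) :
    @SeparatedNhds _ boxTop H K :=
  one_sided g S 𝒲 hS h𝒲 hch H K hH hK hd hx

end Pool.Agent.Results.MP_d75401_gt.OneSidedSeparation
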